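import Pool.Agent.T2h56.Menger.Erdos

/-!
# Homeomorphism groups: `K` and `ℕ × K` cannot both have complete Erdős space as their
homeomorphism group
-/

set_option autoImplicit false

namespace Pool.Agent.T2h56.Menger

open Set Filter Topology

/-- the compact-open topology on the homeomorphism group -/
@[reducible] def TH (M : Type) [TopologicalSpace M] : TopologicalSpace (M ≃ₜ M) :=
  TopologicalSpace.induced (fun g : M ≃ₜ M => ContinuousMap.mk (⇑g) g.continuous) inferInstance

attribute [local instance] TH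

/-- closed embeddings of complete Erdős space into itself have unbounded range -/
lemma no_bounded_copy (j : ES → ES) (hj : IsClosedEmbedding j) (e : ES) (r : ℝ)
    (h : ∀ y, dist (j y) e < r) : False := by
  have hz : (0 : L2) ∈ ES := fun i => Or.inl (by simp)
  have hr : 0 < r := lt_of_le_of_lt dist_nonneg (h ⟨0, hz⟩)
  obtain ⟨x, ⟨x', rfl⟩, hx⟩ := zero_dim_point (range j) hj.isClosed_range ⟨_, ⟨0, hz⟩, rfl⟩
    (r + ‖e.1‖) (by positivity) (by
      rintro _ ⟨y, rfl⟩
      have h1 := h y
      rw [Subtype.dist_eq, dist_eq_norm] at h1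
      have h2 := norm_le_norm_add_norm_sub' (j y).1 e.1
      linarith)
  -- a small neighbourhood in the copy
  have h1 : ∃ δ > 0, ∀ y, dist (j y) (j x') < δ → dist y x' < 1 := by
    have h2 : Metric.ball x' 1 ∈ 𝓝 x' := Metric.ball_mem_nhds x' one_pos
    rw [hj.isEmbedding.nhds_eq_comap] at h2
    obtain ⟨t, ht, ht2⟩ := mem_comap.1 h2
    obtain ⟨δ, hδ, ht3⟩ := Metric.mem_nhds_iff.1 ht
    exact ⟨δ, hδ, fun y hy => ht2 (ht3 hy)⟩
  obtain ⟨δ, hδ, h3⟩ := h1
  obtain ⟨V, hV, hxV, hV2⟩ := hx δ hδ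
  refine clopen_unbounded (j ⁻¹' V) (hV.clopen.preimage hj.continuous) ⟨x', hxV⟩ (1 + ‖x'.1‖)
    (by positivity) ?_
  intro y hy
  have h4 := h3 y (hV2 (j y) ⟨hy, ⟨y, rfl⟩⟩)
  rw [Subtype.dist_eq, dist_eq_norm] at h4
  have h2 := norm_le_norm_add_norm_sub' y.1 x'.1
  linarith

variable {K : Type} [TopologicalSpace K]

/-- act by `g` on the `n`-th copy of `K` -/
def act (n : ℕ) (g : K ≃ₜ K) : (ℕ × K) ≃ₜ (ℕ × K) where
  toFun p := (p.1, if p.1 = n then g p.2 else p.2)
  invFun p := (p.1, if p.1 = n then g.symm p.2 else p.2)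
  left_inv p := by
    rcases p with ⟨m, x⟩
    by_cases h : m = n <;> simp [h]
  right_inv p := by
    rcases p with ⟨m, x⟩
    by_cases h : m = n <;> simp [h]
  continuous_toFun := by
    refine continuous_fst.prodMk ?_
    rw [continuous_iff_continuousAt]
    rintro ⟨m, x⟩
    have hm : ∀ᶠ p : ℕ × K in 𝓝 (m, x), p.1 = m :=
      ((isOpen_discrete ({m} : Set ℕ)).preimage continuous_fst).mem_nhds rfl
    by_cases h : m = n
    · refine ContinuousAt.congr (f := fun p : ℕ × K => g p.2)
        (g.continuous.comp continuous_snd).continuousAt ?_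
      filter_upwards [hm] with p hp
      rw [hp, if_pos h]
    · refine ContinuousAt.congr (f := fun p : ℕ × K => p.2) continuous_snd.continuousAt ?_
      filter_upwards [hm] with p hp
      rw [hp, if_neg h]
  continuous_invFun := by
    refine continuous_fst.prodMk ?_
    rw [continuous_iff_continuousAt]
    rintro ⟨m, x⟩
    have hm : ∀ᶠ p : ℕ × K in 𝓝 (m, x), p.1 = m :=
      ((isOpen_discrete ({m} : Set ℕ)).preimage continuous_fst).mem_nhds rfl
    by_cases h : m = n
    · refine ContinuousAt.congr (f := fun p : ℕ × K => g.symm p.2)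
        (g.symm.continuous.comp continuous_snd).continuousAt ?_
      filter_upwards [hm] with p hp
      rw [hp, if_pos h]
    · refine ContinuousAt.congr (f := fun p : ℕ × K => p.2) continuous_snd.continuousAt ?_
      filter_upwards [hm] with p hp
      rw [hp, if_neg h]

lemma act_apply (n : ℕ) (g : K ≃ₜ K) (p : ℕ × K) :
    act n g p = (p.1, if p.1 = n then g p.2 else p.2) := rfl

lemma act_continuous [LocallyCompactSpace K] (n : ℕ) : Continuous (act (K := K) n) := by
  rw [continuous_induced_rng]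
  refine ContinuousMap.continuous_of_continuous_uncurry _ ?_
  show Continuous fun q : (K ≃ₜ K) × (ℕ × K) => ((q.2.1, if q.2.1 = n then q.1 q.2.2 else q.2.2) : ℕ × K)
  refine (continuous_fst.comp continuous_snd).prodMk ?_
  rw [continuous_iff_continuousAt]
  rintro ⟨g, m, x⟩
  have hm : ∀ᶠ q : (K ≃ₜ K) × (ℕ × K) in 𝓝 (g, (m, x)), q.2.1 = m :=
    ((isOpen_discrete ({m} : Set ℕ)).preimage (continuous_fst.comp continuous_snd)).mem_nhds rfl
  by_cases h : m = n
  · refine ContinuousAt.congr (f := fun q : (K ≃ₜ K) × (ℕ × K) => q.1 q.2.2) ?_ ?_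
    · let c : (K ≃ₜ K) → C(K, K) := fun g => ContinuousMap.mk (⇑g) g.continuous
      have hc : Continuous c := continuous_induced_dom
      have h2 : Continuous fun q : (K ≃ₜ K) × (ℕ × K) => (c q.1, q.2.2) :=
        (hc.comp continuous_fst).prodMk (continuous_snd.comp continuous_snd)
      have h1 : Continuous fun q : (K ≃ₜ K) × (ℕ × K) => c q.1 q.2.2 :=
        (continuous_eval (F := C(K, K))).comp h2
      exact h1.continuousAt
    · filter_upwards [hm] with p hp
      rw [hp, if_pos h]
  · refine ContinuousAt.congr (f := fun q : (K ≃ₜ K) × (ℕ × K) => q.2.2)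
      (continuous_snd.comp continuous_snd).continuousAt ?_
    filter_upwards [hm] with p hp
    rw [hp, if_neg h]

lemma act_inducing [LocallyCompactSpace K] (n : ℕ) : IsInducing (act (K := K) n) := by
  -- restriction to the `n`-th copy
  let ρ : C(ℕ × K, ℕ × K) → C(K, K) := fun f =>
    (ContinuousMap.mk Prod.snd continuous_snd).comp (f.comp
      (ContinuousMap.mk (fun x : K => ((n, x) : ℕ × K)) (by fun_prop)))
  have hρ : Continuous ρ := by
    exact (ContinuousMap.continuous_postcomp _).comp (ContinuousMap.continuous_precomp _)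
  let c : (ℕ × K) ≃ₜ (ℕ × K) → C(ℕ × K, ℕ × K) := fun g => ContinuousMap.mk (⇑g) g.continuous
  have hc : Continuous c := continuous_induced_dom
  have hcomp : ∀ g : K ≃ₜ K, ρ (c (act n g)) = ContinuousMap.mk (⇑g) g.continuous := by
    intro g
    ext x
    simp [ρ, c, act_apply]
  have h1 : IsInducing ((ρ ∘ c) ∘ act (K := K) n) := by
    have : (ρ ∘ c) ∘ act (K := K) n = fun g : K ≃ₜ K => ContinuousMap.mk (⇑g) g.continuous :=
      funext hcomp
    rw [this]
    exact ⟨rfl⟩
  exact IsInducing.of_comp (act_continuous n) (hρ.comp hc) h1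

lemma act_injective (n : ℕ) : Function.Injective (act (K := K) n) := by
  intro g h e
  ext x
  have := congrArg (fun f : (ℕ × K) ≃ₜ (ℕ × K) => (f (n, x)).2) e
  simpa [act_apply] using this

lemma act_range (n : ℕ) : range (act (K := K) n) =
    {h : (ℕ × K) ≃ₜ (ℕ × K) | ∀ m ≠ n, ∀ x, h (m, x) = (m, x)} := by
  ext h
  constructor
  · rintro ⟨g, rfl⟩ m hm x
    rw [act_apply]
    simp [hm]
  · intro hh
    simp only [mem_ofPred_eq] at hh
    have hs : ∀ m ≠ n, ∀ x, h.symm (m, x) = (m, x) := by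
      intro m hm x
      rw [← hh m hm x, Homeomorph.symm_apply_apply]
      rw [hh m hm x]
    have h1 : ∀ x, (h (n, x)).1 = n := by
      intro x
      by_contra hne
      have h2 : h.symm (h (n, x)) = h (n, x) := hs _ hne _
      rw [Homeomorph.symm_apply_apply] at h2
      exact hne (by rw [← h2])
    have h1' : ∀ x, (h.symm (n, x)).1 = n := by
      intro x
      by_contra hne
      have h2 : h (h.symm (n, x)) = h.symm (n, x) := hh _ hne _
      rw [Homeomorph.apply_symm_apply] at h2
      exact hne (by rw [← h2])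
    have e1 : ∀ x, h (n, x) = (n, (h (n, x)).2) := fun x => Prod.ext (h1 x) rfl
    have e1' : ∀ x, h.symm (n, x) = (n, (h.symm (n, x)).2) := fun x => Prod.ext (h1' x) rfl
    let g : K ≃ₜ K :=
      { toFun := fun x => (h (n, x)).2
        invFun := fun x => (h.symm (n, x)).2
        left_inv := fun x => by
          show (h.symm (n, (h (n, x)).2)).2 = x
          rw [← e1, Homeomorph.symm_apply_apply]
        right_inv := fun x => by
          show (h (n, (h.symm (n, x)).2)).2 = x
          rw [← e1', Homeomorph.apply_symm_apply]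
        continuous_toFun := by fun_prop
        continuous_invFun := by fun_prop }
    refine ⟨g, ?_⟩
    ext p
    · rcases p with ⟨m, x⟩
      rw [act_apply]
      by_cases hm : m = n
      · subst hm
        simp [h1]
      · simp [hh m hm x]
    · rcases p with ⟨m, x⟩
      rw [act_apply]
      by_cases hm : m = n
      · subst hm
        simp [g]
      · simp [hh m hm x, hm]

lemma act_closed [T2Space K] [LocallyCompactSpace K] (n : ℕ) :
    IsClosedEmbedding (act (K := K) n) := by
  refine ⟨⟨act_inducing n, act_injective n⟩, ?_⟩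
  rw [act_range]
  have h : {h : (ℕ × K) ≃ₜ (ℕ × K) | ∀ m ≠ n, ∀ x, h (m, x) = (m, x)} =
      ⋂ (m : ℕ) (_ : m ≠ n) (x : K), {h : (ℕ × K) ≃ₜ (ℕ × K) | h (m, x) = (m, x)} := by
    ext h
    simp
  rw [h]
  refine isClosed_iInter fun m => isClosed_iInter fun _ => isClosed_iInter fun x => ?_
  have hc : Continuous fun h : (ℕ × K) ≃ₜ (ℕ × K) =>
      (ContinuousMap.mk (⇑h) h.continuous : C(ℕ × K, ℕ × K)) (m, x) :=
    (continuous_eval_const (F := C(ℕ × K, ℕ × K)) (m, x)).comp continuous_induced_dom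
  exact isClosed_eq hc continuous_const

/-- the copies converge to the identity -/
lemma act_small (U : Set ((ℕ × K) ≃ₜ (ℕ × K))) (hU : U ∈ 𝓝 (Homeomorph.refl (ℕ × K))) :
    ∃ n, ∀ g : K ≃ₜ K, act n g ∈ U := by
  have h1 : Tendsto (fun p : ℕ × (K ≃ₜ K) => act p.1 p.2) (comap Prod.fst atTop)
      (𝓝 (Homeomorph.refl (ℕ × K))) := by
    rw [nhds_induced, tendsto_comap_iff, ContinuousMap.tendsto_nhds_compactOpen]
    intro Q hQ O _ hQO
    obtain ⟨N, hN⟩ : ∃ N : ℕ, ∀ p ∈ Q, p.1 < N := by
      have h2 : (Prod.fst '' Q : Set ℕ).Finite := (hQ.image continuous_fst).finite_of_discrete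
      obtain ⟨N, hN⟩ := h2.bddAbove
      exact ⟨N + 1, fun p hp => Nat.lt_succ_of_le (hN (mem_image_of_mem _ hp))⟩
    refine ((eventually_ge_atTop N).comap Prod.fst).mono ?_
    rintro ⟨n, g⟩ hn p hp
    have h3 : p.1 ≠ n := by
      have h4 := hN p hp
      have h5 : N ≤ n := hn
      omega
    have h4 := hQO hp
    show act n g p ∈ O
    rw [act_apply, if_neg h3]
    exact h4
  have h2 := h1 hU
  rw [mem_map, mem_comap] at h2
  obtain ⟨t, ht, ht2⟩ := h2
  obtain ⟨n, hn⟩ := mem_atTop_sets.1 ht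
  exact ⟨n, fun g => ht2 (show (n, g).1 ∈ t from hn n le_rfl)⟩

theorem key [T2Space K] [LocallyCompactSpace K] (Φ : (K ≃ₜ K) ≃ₜ ES)
    (Ψ : ((ℕ × K) ≃ₜ (ℕ × K)) ≃ₜ ES) : False := by
  obtain ⟨n, hn⟩ := act_small (K := K) (Ψ ⁻¹' Metric.ball (Ψ (Homeomorph.refl (ℕ × K))) 1)
    (Ψ.continuous.continuousAt.preimage_mem_nhds (Metric.ball_mem_nhds _ one_pos))
  exact no_bounded_copy (fun y => Ψ (act n (Φ.symm y)))
    (Ψ.isClosedEmbedding.comp ((act_closed n).comp Φ.symm.isClosedEmbedding))
    (Ψ (Homeomorph.refl (ℕ × K))) 1 fun y => hn _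

end Pool.Agent.T2h56.Menger
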