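import Mathlib

/-!
# Complete Erdős space: clopen sets are unbounded, bounded closed sets are zero-dimensional
at some point
-/

set_option autoImplicit false

namespace Pool.Agent.T2h56.Menger

open Set Filter Topology

/-- the Hilbert space of the square summable sequences -/
abbrev L2 := lp (fun _ : ℕ => ℝ) 2

/-- complete Erdős space -/
abbrev ES : Set L2 := {x : lp (fun _ : ℕ => ℝ) 2 | ∀ i : ℕ, (x : ℕ → ℝ) i = 0 ∨
            ∃ k : ℕ, 0 < k ∧ (x : ℕ → ℝ) i = 1 / (k : ℝ)}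

lemma es_rat (x : ES) (i : ℕ) : ∃ q : ℚ, (x.1 : ℕ → ℝ) i = q := by
  rcases x.2 i with h | ⟨k, -, h⟩
  · exact ⟨0, by rw [h]; simp⟩
  · exact ⟨1 / k, by rw [h]; simp⟩

lemma continuous_coord' (i : ℕ) : Continuous fun x : L2 => (x : ℕ → ℝ) i := by
  have h2 := lp.uniformContinuous_coe (E := fun _ : ℕ => ℝ) (p := 2)
  exact (continuous_apply i).comp h2.continuous

lemma continuous_coord (i : ℕ) : Continuous fun x : ES => (x.1 : ℕ → ℝ) i :=
  (continuous_coord' i).comp continuous_subtype_val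

lemma es_closed : IsClosed ES := by
  have h : ES = ⋂ i : ℕ, (fun x : L2 => (x : ℕ → ℝ) i) ⁻¹'
      {t : ℝ | t = 0 ∨ ∃ k : ℕ, 0 < k ∧ t = 1 / (k : ℝ)} := by
    ext x
    simp
  rw [h]
  refine isClosed_iInter fun i => IsClosed.preimage (continuous_coord' i) ?_
  have h2 : {t : ℝ | t = 0 ∨ ∃ k : ℕ, 0 < k ∧ t = 1 / (k : ℝ)} =
      insert 0 (range fun n : ℕ => 1 / ((n : ℝ) + 1)) := by
    ext t
    simp only [mem_ofPred_eq, mem_insert_iff, mem_range]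
    refine or_congr Iff.rfl ⟨?_, ?_⟩
    · rintro ⟨k, hk, h⟩
      refine ⟨k - 1, ?_⟩
      rw [h]
      have : ((k - 1 : ℕ) : ℝ) = k - 1 := by
        rw [Nat.cast_sub hk]
        simp
      rw [this]
      ring
    · rintro ⟨n, h⟩
      exact ⟨n + 1, Nat.succ_pos n, by rw [← h]; push_cast; ring⟩
  rw [h2]
  exact (tendsto_one_div_add_atTop_nhds_zero_nat (𝕜 := ℝ)).isCompact_insert_range.isClosed

/-- basic clopen sets -/
def Wc (x : ES) (L : ℕ) (η : ℝ) : Set ES :=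
  {y | ∀ i < L, |(y.1 : ℕ → ℝ) i - (x.1 : ℕ → ℝ) i| < η}

lemma Wc_clopen (x : ES) (L : ℕ) {η : ℝ} (hη : Irrational η) : IsClopen (Wc x L η) := by
  have h1 : Wc x L η = ⋂ i ∈ Finset.range L,
      {y : ES | |(y.1 : ℕ → ℝ) i - (x.1 : ℕ → ℝ) i| < η} := by
    ext y
    simp [Wc]
  rw [h1]
  refine Set.Finite.isClopen_biInter (Finset.finite_toSet _) (fun i _ => ?_)
  have hc : Continuous fun y : ES => |(y.1 : ℕ → ℝ) i - (x.1 : ℕ → ℝ) i| :=
    ((continuous_coord i).sub continuous_const).abs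
  refine ⟨?_, isOpen_lt hc continuous_const⟩
  have h2 : {y : ES | |(y.1 : ℕ → ℝ) i - (x.1 : ℕ → ℝ) i| < η} =
      {y : ES | |(y.1 : ℕ → ℝ) i - (x.1 : ℕ → ℝ) i| ≤ η} := by
    ext y
    simp only [mem_ofPred_eq]
    refine ⟨le_of_lt, fun h => lt_of_le_of_ne h fun h' => hη ?_⟩
    obtain ⟨a, ha⟩ := es_rat y i
    obtain ⟨b, hb⟩ := es_rat x i
    refine ⟨|a - b|, ?_⟩
    rw [← h', ha, hb]
    push_cast
    rfl
  rw [h2]
  exact isClosed_le hc continuous_const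

lemma Wc_self (x : ES) (L : ℕ) {η : ℝ} (hη : 0 < η) : x ∈ Wc x L η := by
  intro i _
  simpa using hη

/-- weak continuity of the inner product -/
lemma inner_near (x : ES) (R ε : ℝ) (hR : 0 ≤ R) (hε : 0 < ε) :
    ∃ L : ℕ, ∃ η : ℝ, 0 < η ∧ Irrational η ∧ ∀ y : ES, ‖y.1‖ ≤ R → y ∈ Wc x L η →
      ‖x.1‖ ^ 2 - ε < inner ℝ y.1 x.1 := by
  have hs := lp.hasSum_single (E := fun _ : ℕ => ℝ) (p := 2) (by norm_num) x.1
  set B : ℝ := R + ‖x.1‖ + 1 with hB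
  have hB0 : 0 < B := by positivity
  have h1 : ∀ᶠ s : Finset ℕ in atTop,
      ‖(∑ i ∈ s, lp.single (E := fun _ : ℕ => ℝ) 2 i ((x.1 : ℕ → ℝ) i)) - x.1‖ < ε / (2 * B) := by
    have := (Metric.tendsto_nhds.1 hs) (ε / (2 * B)) (by positivity)
    simpa [dist_eq_norm] using this
  obtain ⟨s, hs⟩ := h1.exists
  set x' : L2 := ∑ i ∈ s, lp.single (E := fun _ : ℕ => ℝ) 2 i ((x.1 : ℕ → ℝ) i) with hx'
  set S : ℝ := ∑ i ∈ s, |(x.1 : ℕ → ℝ) i| with hS
  have hS0 : 0 ≤ S := Finset.sum_nonneg fun i _ => abs_nonneg _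
  obtain ⟨η, hη1, hη2, hη3⟩ := exists_irrational_btwn (x := 0) (y := ε / (2 * (S + 1)))
    (by positivity)
  obtain ⟨L, hL⟩ : ∃ L : ℕ, ∀ i ∈ s, i < L := ⟨s.sup id + 1, fun i hi =>
    Nat.lt_succ_of_le (Finset.le_sup (f := id) hi)⟩
  refine ⟨L, η, hη2, hη1, fun y hy hyW => ?_⟩
  have e1 : inner ℝ y.1 x.1 - ‖x.1‖ ^ 2 = inner ℝ (y.1 - x.1) x' + inner ℝ (y.1 - x.1) (x.1 - x') := by
    rw [← inner_add_right, add_sub_cancel, inner_sub_left, real_inner_self_eq_norm_sq]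
  have e2 : inner ℝ (y.1 - x.1) x' = ∑ i ∈ s, ((y.1 : ℕ → ℝ) i - (x.1 : ℕ → ℝ) i) * (x.1 : ℕ → ℝ) i := by
    rw [hx', inner_sum]
    refine Finset.sum_congr rfl fun i _ => ?_
    rw [lp.inner_single_right]
    simp [mul_comm]
  have e3 : |inner ℝ (y.1 - x.1) x'| ≤ η * S := by
    rw [e2, hS, Finset.mul_sum]
    refine (Finset.abs_sum_le_sum_abs _ _).trans (Finset.sum_le_sum fun i hi => ?_)
    rw [abs_mul]
    exact mul_le_mul_of_nonneg_right (hyW i (hL i hi)).le (abs_nonneg _)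
  have e4 : |inner ℝ (y.1 - x.1) (x.1 - x')| ≤ (R + ‖x.1‖) * (ε / (2 * B)) := by
    refine (abs_real_inner_le_norm _ _).trans ?_
    refine mul_le_mul ((norm_sub_le _ _).trans (by linarith)) ?_ (norm_nonneg _) (by positivity)
    rw [norm_sub_rev]
    exact hs.le
  have e5 : η * S < ε / 2 := by
    have : η * S ≤ ε / (2 * (S + 1)) * S := mul_le_mul_of_nonneg_right hη3.le hS0
    refine this.trans_lt ?_
    rw [div_mul_eq_mul_div, div_lt_div_iff₀ (by positivity) (by positivity)]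
    nlinarith
  have e6 : (R + ‖x.1‖) * (ε / (2 * B)) < ε / 2 := by
    rw [mul_div_assoc', div_lt_div_iff₀ (by positivity) (by positivity)]
    nlinarith [norm_nonneg x.1]
  have e7 := (abs_le.1 e3).1
  have e8 := (abs_le.1 e4).1
  linarith

/-- one step of the construction -/
lemma step (R : ℝ) (hR : 0 ≤ R) (T : Set ES) (hT : T.Nonempty) (hb : ∀ y ∈ T, ‖y.1‖ ≤ R)
    (ε : ℝ) (hε : 0 < ε) :
    ∃ x ∈ T, ∃ L : ℕ, ∃ η : ℝ, 0 < η ∧ Irrational η ∧ ∀ y ∈ T, y ∈ Wc x L η → dist y x < ε := by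
  set f : ES → ℝ := fun y => ‖y.1‖ ^ 2 with hf
  have hbd : BddAbove (f '' T) := by
    refine ⟨R ^ 2, ?_⟩
    rintro _ ⟨y, hy, rfl⟩
    exact pow_le_pow_left₀ (norm_nonneg _) (hb y hy) 2
  set δ : ℝ := ε ^ 2 / 3 with hδ
  have hδ0 : 0 < δ := by positivity
  obtain ⟨_, ⟨x, hx, rfl⟩, hx2⟩ := exists_lt_of_lt_csSup (hT.image f)
    (show sSup (f '' T) - δ < sSup (f '' T) by linarith)
  obtain ⟨L, η, h1, h2, h3⟩ := inner_near x R δ hR hδ0
  refine ⟨x, hx, L, η, h1, h2, fun y hy hyW => ?_⟩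
  have h4 := h3 y (hb y hy) hyW
  have h5 : f y ≤ sSup (f '' T) := le_csSup hbd (mem_image_of_mem f hy)
  have h6 : ‖y.1 - x.1‖ ^ 2 = ‖y.1‖ ^ 2 - 2 * inner ℝ y.1 x.1 + ‖x.1‖ ^ 2 := by
    rw [@norm_sub_sq_real]
  have h7 : ‖y.1 - x.1‖ ^ 2 < ε ^ 2 := by
    rw [h6]
    simp only [hf] at hx2 h5
    have : ε ^ 2 = 3 * δ := by rw [hδ]; ring
    linarith
  have h8 : ‖y.1 - x.1‖ < ε := lt_of_pow_lt_pow_left₀ 2 hε.le h7
  rwa [Subtype.dist_eq, dist_eq_norm]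

/-- A clopen set which is a neighbourhood of each of its points in the coordinatewise sense. -/
structure Good (V : Set ES) : Prop where
  clopen : IsClopen V
  wopen : ∀ x ∈ V, ∃ L : ℕ, ∀ y : ES, (∀ i < L, (y.1 : ℕ → ℝ) i = (x.1 : ℕ → ℝ) i) → y ∈ V

lemma Good.inter {V W : Set ES} (hV : Good V) (hW : Good W) : Good (V ∩ W) := by
  refine ⟨hV.clopen.inter hW.clopen, fun x hx => ?_⟩
  obtain ⟨L1, h1⟩ := hV.wopen x hx.1
  obtain ⟨L2, h2⟩ := hW.wopen x hx.2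
  exact ⟨max L1 L2, fun y hy => ⟨h1 y fun i hi => hy i (lt_max_of_lt_left hi),
    h2 y fun i hi => hy i (lt_max_of_lt_right hi)⟩⟩

lemma Wc_good (x : ES) (L : ℕ) {η : ℝ} (hη : Irrational η) : Good (Wc x L η) := by
  refine ⟨Wc_clopen x L hη, fun z hz => ⟨L, fun y hy i hi => ?_⟩⟩
  rw [hy i hi]
  exact hz i hi

/-- Every bounded nonempty closed subset of complete Erdős space is zero-dimensional at one of
its points. -/
lemma zero_dim_point (A : Set ES) (hA : IsClosed A) (hne : A.Nonempty) (R : ℝ) (hR : 0 ≤ R)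
    (hb : ∀ y ∈ A, ‖y.1‖ ≤ R) :
    ∃ x ∈ A, ∀ δ > 0, ∃ V : Set ES, Good V ∧ x ∈ V ∧ ∀ y ∈ V ∩ A, dist y x < δ := by
  classical
  -- states
  let St := {V : Set ES // Good V ∧ (V ∩ A).Nonempty}
  have hstep : ∀ (n : ℕ) (V : St), ∃ W : St, W.1 ⊆ V.1 ∧
      ∀ y ∈ W.1 ∩ A, ∀ z ∈ W.1 ∩ A, dist y z < 1 / ((n : ℝ) + 1) := by
    intro n V
    obtain ⟨x, hx, L, η, h1, h2, h3⟩ := step R hR (V.1 ∩ A) V.2.2 (fun y hy => hb y hy.2)
      (1 / (2 * ((n : ℝ) + 1))) (by positivity)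
    refine ⟨⟨V.1 ∩ Wc x L η, V.2.1.inter (Wc_good x L h2), ⟨x, ⟨hx.1, Wc_self x L h1⟩, hx.2⟩⟩,
      inter_subset_left, ?_⟩
    rintro y ⟨⟨hy1, hy2⟩, hy3⟩ z ⟨⟨hz1, hz2⟩, hz3⟩
    have e1 := h3 y ⟨hy1, hy3⟩ hy2
    have e2 := h3 z ⟨hz1, hz3⟩ hz2
    have e3 := dist_triangle_right y z x
    have e4 : 1 / ((n : ℝ) + 1) = 1 / (2 * ((n : ℝ) + 1)) + 1 / (2 * ((n : ℝ) + 1)) := by
      field_simp
      norm_num
    rw [e4]
    linarith
  choose nx hnx1 hnx2 using hstep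
  have huniv : Good (univ : Set ES) := ⟨isClopen_univ, fun x _ => ⟨0, fun y _ => mem_univ y⟩⟩
  let V : ℕ → St := fun n => Nat.rec ⟨univ, huniv, by simpa using hne⟩ (fun n v => nx n v) n
  have hV : ∀ n, V (n + 1) = nx n (V n) := fun n => rfl
  have hanti : ∀ m n, m ≤ n → (V n).1 ⊆ (V m).1 := by
    intro m n hmn
    induction hmn with
    | refl => exact subset_rfl
    | step h ih =>
      rw [Nat.succ_eq_add_one, hV]
      exact (hnx1 _ _).trans ih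
  choose p hp using fun n => (V (n + 1)).2.2
  have hcau : CauchySeq p := by
    refine cauchySeq_of_le_tendsto_0 (fun n : ℕ => 1 / ((n : ℝ) + 1)) ?_
      tendsto_one_div_add_atTop_nhds_zero_nat
    intro n m N hn hm
    have := hnx2 N (V N) (p n) (by
        rw [← hV]; exact ⟨hanti _ _ (Nat.succ_le_succ hn) (hp n).1, (hp n).2⟩)
      (p m) (by rw [← hV]; exact ⟨hanti _ _ (Nat.succ_le_succ hm) (hp m).1, (hp m).2⟩)
    exact this.le
  have hcomp : CompleteSpace ES := es_closed.completeSpace_coe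
  obtain ⟨x, hx⟩ := cauchySeq_tendsto_of_complete hcau
  have hxA : x ∈ A := hA.mem_of_tendsto hx (Eventually.of_forall fun n => (hp n).2)
  have hxV : ∀ n, x ∈ (V n).1 := fun n => (V n).2.1.clopen.isClosed.mem_of_tendsto hx
    ((eventually_ge_atTop n).mono fun m hm => hanti _ _ (hm.trans (Nat.le_succ m)) (hp m).1)
  refine ⟨x, hxA, fun δ hδ => ?_⟩
  obtain ⟨n, hn⟩ := exists_nat_one_div_lt hδ
  refine ⟨(V (n + 1)).1, (V (n + 1)).2.1, hxV (n + 1), fun y hy => ?_⟩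
  have := hnx2 n (V n) y (by rw [← hV]; exact hy) x (by rw [← hV]; exact ⟨hxV (n + 1), hxA⟩)
  exact this.trans hn

/-- Erdős: a bounded clopen subset of complete Erdős space is empty. -/
lemma clopen_unbounded (C : Set ES) (hC : IsClopen C) (hne : C.Nonempty) (R : ℝ) (hR : 0 ≤ R)
    (hb : ∀ y ∈ C, ‖y.1‖ ≤ R) : False := by
  classical
  obtain ⟨x, hxC, hx⟩ := zero_dim_point C hC.isClosed hne R hR hb
  obtain ⟨r, hr, hball⟩ := Metric.isOpen_iff.1 hC.isOpen x hxC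
  obtain ⟨V, hV, hxV, hVC⟩ := hx (r / 2) (by positivity)
  obtain ⟨L, hL⟩ := hV.wopen x hxV
  -- choose the step size
  obtain ⟨N, hN⟩ := exists_nat_gt (2 / r)
  have hN0 : (0 : ℝ) < N := lt_trans (by positivity) hN
  have hNr : 1 < (N : ℝ) * r / 2 := by
    rw [div_lt_iff₀ hr] at hN
    linarith
  have hsum := (lp.memℓp x.1).summable (by norm_num)
  have htend : Tendsto (fun i => (x.1 : ℕ → ℝ) i) atTop (𝓝 0) := by
    have h1 := hsum.tendsto_atTop_zero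
    simp only [ENNReal.toReal_ofNat] at h1
    rw [tendsto_zero_iff_norm_tendsto_zero]
    have h2 : Tendsto (fun i => Real.sqrt (‖(x.1 : ℕ → ℝ) i‖ ^ (2:ℝ))) atTop (𝓝 (Real.sqrt 0)) :=
      (Real.continuous_sqrt.tendsto 0).comp h1
    rw [Real.sqrt_zero] at h2
    refine h2.congr fun i => ?_
    rw [Real.rpow_two, Real.sqrt_sq (norm_nonneg _)]
  have hev : ∀ᶠ i in atTop, |(x.1 : ℕ → ℝ) i| < 1 / (4 * N) := by
    have := (Metric.tendsto_nhds.1 htend) (1 / (4 * N)) (by positivity)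
    simpa [dist_eq_norm] using this
  obtain ⟨L1, hL1⟩ := eventually_atTop.1 hev
  set K := max L L1 with hK
  -- number of changed coordinates
  set j : ℕ := ⌈4 / 9 * (r ^ 2 * (N : ℝ) ^ 2)⌉₊ with hj
  have hrN : 4 < r ^ 2 * (N : ℝ) ^ 2 := by nlinarith
  have hj1 : 4 / 9 * (r ^ 2 * (N : ℝ) ^ 2) ≤ j := Nat.le_ceil _
  have hj2 : (j : ℝ) < r ^ 2 * (N : ℝ) ^ 2 := by
    have := Nat.ceil_lt_add_one (show (0 : ℝ) ≤ 4 / 9 * (r ^ 2 * (N : ℝ) ^ 2) by positivity)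
    rw [← hj] at this
    linarith
  set g : ℕ → ℝ := fun i => 1 / (N : ℝ) - (x.1 : ℕ → ℝ) i with hg
  set v : L2 := ∑ i ∈ Finset.Ico K (K + j), lp.single (E := fun _ : ℕ => ℝ) 2 i (g i) with hv
  have hvi : ∀ i, (v : ℕ → ℝ) i = if i ∈ Finset.Ico K (K + j) then g i else 0 := by
    intro i
    rw [hv, lp.coeFn_sum, Finset.sum_apply]
    simp only [lp.coeFn_single, Pi.single_apply]
    rw [Finset.sum_ite_eq]
  have hvn : ‖v‖ ^ 2 = ∑ i ∈ Finset.Ico K (K + j), g i ^ 2 := by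
    have := lp.norm_sum_single (E := fun _ : ℕ => ℝ) (p := 2) (by norm_num) g
      (Finset.Ico K (K + j))
    simp only [ENNReal.toReal_ofNat, Real.rpow_two] at this
    rw [hv, this]
    exact Finset.sum_congr rfl fun i _ => by rw [Real.norm_eq_abs, sq_abs]
  have hxnn : ∀ i, 0 ≤ (x.1 : ℕ → ℝ) i := by
    intro i
    rcases x.2 i with h | ⟨k, -, h⟩
    · exact h.ge
    · rw [h]; positivity
  have hgl : ∀ i ∈ Finset.Ico K (K + j), 9 / (16 * (N : ℝ) ^ 2) ≤ g i ^ 2 := by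
    intro i hi
    have h1 := hL1 i ((le_max_right _ _).trans (Finset.mem_Ico.1 hi).1)
    rw [abs_of_nonneg (hxnn i)] at h1
    have h2 : 3 / (4 * (N : ℝ)) ≤ g i := by
      have : 1 / (N : ℝ) - 1 / (4 * N) = 3 / (4 * N) := by field_simp; norm_num
      rw [← this]
      simp only [hg]
      linarith
    have h3 : 9 / (16 * (N : ℝ) ^ 2) = (3 / (4 * (N : ℝ))) ^ 2 := by field_simp; norm_num
    rw [h3]
    exact pow_le_pow_left₀ (by positivity) h2 2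
  have hgu : ∀ i ∈ Finset.Ico K (K + j), g i ^ 2 ≤ 1 / (N : ℝ) ^ 2 := by
    intro i hi
    have h1 := hL1 i ((le_max_right _ _).trans (Finset.mem_Ico.1 hi).1)
    rw [abs_of_nonneg (hxnn i)] at h1
    have h0 : 0 ≤ g i := by
      have : 1 / (4 * (N : ℝ)) ≤ 1 / N := by
        apply one_div_le_one_div_of_le hN0
        linarith
      simp only [hg]
      linarith
    have h2 : g i ≤ 1 / (N : ℝ) := by
      simp only [hg]
      linarith [hxnn i]
    calc g i ^ 2 ≤ (1 / (N : ℝ)) ^ 2 := pow_le_pow_left₀ h0 h2 2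
      _ = 1 / (N : ℝ) ^ 2 := by rw [div_pow, one_pow]
  have hlow : (r / 2) ^ 2 ≤ ‖v‖ ^ 2 := by
    rw [hvn]
    calc (r / 2) ^ 2 ≤ j * (9 / (16 * (N : ℝ) ^ 2)) := by
          rw [mul_div_assoc', le_div_iff₀ (by positivity)]
          nlinarith
      _ = ∑ i ∈ Finset.Ico K (K + j), 9 / (16 * (N : ℝ) ^ 2) := by
          rw [Finset.sum_const, Nat.card_Ico, add_tsub_cancel_left, nsmul_eq_mul]
      _ ≤ _ := Finset.sum_le_sum hgl
  have hupp : ‖v‖ ^ 2 < r ^ 2 := by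
    rw [hvn]
    calc _ ≤ ∑ i ∈ Finset.Ico K (K + j), 1 / (N : ℝ) ^ 2 := Finset.sum_le_sum hgu
      _ = j * (1 / (N : ℝ) ^ 2) := by
          rw [Finset.sum_const, Nat.card_Ico, add_tsub_cancel_left, nsmul_eq_mul]
      _ < r ^ 2 := by
          rw [mul_one_div, div_lt_iff₀ (by positivity)]
          exact hj2
  have hyE : x.1 + v ∈ ES := by
    intro i
    by_cases hi : i ∈ Finset.Ico K (K + j)
    · right
      refine ⟨N, by exact_mod_cast hN0, ?_⟩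
      rw [lp.coeFn_add, Pi.add_apply, hvi, if_pos hi]
      simp only [hg]
      ring
    · have h1 : ((x.1 + v : L2) : ℕ → ℝ) i = (x.1 : ℕ → ℝ) i := by
        rw [lp.coeFn_add, Pi.add_apply, hvi, if_neg hi, add_zero]
      rw [h1]
      exact x.2 i
  have hdist : dist (⟨x.1 + v, hyE⟩ : ES) x = ‖v‖ := by
    rw [Subtype.dist_eq, dist_eq_norm]
    simp
  have hyV : (⟨x.1 + v, hyE⟩ : ES) ∈ V := by
    apply hL
    intro i hi
    have hi' : i ∉ Finset.Ico K (K + j) := by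
      rw [Finset.mem_Ico]
      have := le_max_left L L1
      omega
    show ((x.1 + v : L2) : ℕ → ℝ) i = (x.1 : ℕ → ℝ) i
    rw [lp.coeFn_add, Pi.add_apply, hvi, if_neg hi', add_zero]
  have h1 : ‖v‖ < r := lt_of_pow_lt_pow_left₀ 2 hr.le hupp
  have h2 : r / 2 ≤ ‖v‖ := le_of_sq_le_sq hlow (norm_nonneg v)
  have hyC : (⟨x.1 + v, hyE⟩ : ES) ∈ C := hball (by rw [Metric.mem_ball, hdist]; exact h1)
  have h3 := hVC _ ⟨hyV, hyC⟩
  rw [hdist] at h3
  linarith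

end Pool.Agent.T2h56.Menger
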